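import Pool.Agent.Y271.RN.Red
import Pool.Agent.Y271.RR.Final

/-!
# MP_49c4d9_an: reductive perturbations of normal operators

Let `N` be an arbitrary normal operator (no condition on its spectrum, which may have interior, or on its
spectral measure).

(1) Every reductive rank one perturbation `T = N + u ⊗ v` is normal, on any complex Hilbert space.

(2) For `H` separable and `K` of trace class, for every `t` outside a set which is null for all atomless
measures with bounded logarithmic potential, in particular for almost every complex and for almost every
real `t`, the operator `N + t K` is normal as soon as it is reductive.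

Proof of (1). If `T` is reductive and not normal, there is (minimal dimension argument of helper706,
starting library) a hyperinvariant, hence reducing, subspace `V` such that the restriction of `T` to `V` is
not scalar and has no nontrivial hyperinvariant subspace. `V` does not reduce `N`, the compression of `N`
to `V` need not be normal and `T|V` need not be a rank one perturbation of a normal operator. Write
`u = u₁ + u₂`, `v = v₁ + v₂` along `V` and its complement, and let `P` be the projection onto `V`. The
Jacobi identity for `P`, `N`, `N†` is a relation between eight vectors, which shows: if `u₁, v₁` are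
independent and `u₂, v₂` are independent then the span of the four vectors contains
`N v₁`, `N v₂`, `N† u₁`, `N† u₂`, so that `u` and `v` are annihilated by `p(N, N†)`, `p` a polynomial of
degree four (a determinant), and the functions `⟪v_i, (z - T)⁻¹ u_i⟫` satisfy quadratic equations with
polynomial coefficients; then the resolvent of `T` on the kernel of `p(N, N†)` is log-integrable and `T` is
normal there (starting library, `W610.HY`), except in a degenerate case where `T|V` is again a rank one
perturbation of a normal operator. The same happens, with a quadratic polynomial, if both pairs are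
dependent with different ratios. If only one pair is dependent, it spans a joint eigenspace and `T|V` is
normal, or a rank one perturbation of a normal operator restricted to a subspace of codimension one, which
inherits the small local spectra. In all other cases `T|V` is a rank one perturbation of a normal
operator. These have hyperinvariant subspaces (hand-in `RankOnePerturbations` of MP_f981b0_an).

Proof of (2). For these `t` the operators `T = N + t K` and `T†` have integrated local resolvents at every
point, for every vector (project NK of helper283, hand-in `NormalPlusTraceClass` of MP_f981b0_an). This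
property passes to reducing subspaces. If the spectrum of `T|V` has two points, the vectors with small
local spectra for `T|V` and its adjoint at different points annihilate each other across the commutant, a
contradiction. If it has only one point `c`, then `T|V - c` is quasinilpotent with compact
self-commutator, hence compact, and Lomonosov's theorem applies.

The parts of (1) were written by helpers 304, 322, 363 (commutator relation), 764, 369, 925, 448,
67, 21, 950, 195, 270, 500, 824, 974, 435, 74, 329, 983, 970, 124, 675, 917, 465, 889, 936, 931, 254 and
837 (project RR); those of project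
RO by helpers 948, 108, 510, 839, 406, 528, 812, 914, 51, 349, 145, 287, 484, 941, 908, 442, 433, 286, 31,
587, 927, 180; those of project NK by helpers 978, 907, 891, 779, 681, 454, 487, 25, 180, 604, 708, 529,
77 and 283; idea of (1), statements and assembly by helper271. `W706.HIR`, `W610.HY`, `W577.HI.G1`,
`W806.HI.G2` belong to the starting library.
-/

set_option autoImplicit false

open MeasureTheory Metric
open scoped InnerProductSpace ENNReal NNReal

namespace Pool.Agent.Results.MP_49c4d9_an.ReductiveCouplings

section Defs

variable {H : Type} [NormedAddCommGroup H] [InnerProductSpace ℂ H]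

/-- Every closed invariant subspace of `T` is invariant under the adjoint. -/
def IsReductive [CompleteSpace H] (T : H →L[ℂ] H) : Prop :=
  ∀ V : Submodule ℂ H, IsClosed (V : Set H) → (∀ x ∈ V, T x ∈ V) →
    ∀ x ∈ V, ContinuousLinearMap.adjoint T x ∈ V

/-- `K` is of trace class: `K f = ∑ ⟪v j, f⟫ u j` with `∑ ‖u j‖² < ∞` and `∑ ‖v j‖² < ∞`. -/
def TraceClass (K : H →L[ℂ] H) : Prop :=
  ∃ u v : ℕ → H, Summable (fun j => ‖u j‖ ^ 2) ∧ Summable (fun j => ‖v j‖ ^ 2) ∧
    ∀ f, HasSum (fun j => ⟪v j, f⟫_ℂ • u j) (K f)

end Defs

/-- The measure `m` has no atoms, and on every disc `|t| < R` it is finite and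
`∫ log⁺ (1 / |t - s|) dm(t)` is bounded in `s ∈ ℂ`. -/
def BoundedPotential (m : Measure ℂ) : Prop :=
  (∀ s : ℂ, m {s} = 0) ∧
  ∀ R : ℝ, m (ball (0:ℂ) R) ≠ ⊤ ∧ ∃ C : ℝ≥0, ∀ s : ℂ,
    ∫⁻ t in ball (0:ℂ) R, ENNReal.ofReal (Real.posLog ‖t - s‖⁻¹) ∂m ≤ C

/-- Every reductive rank one perturbation `T f = N f + ⟪v, f⟫ u` of a normal operator `N` is normal. -/
def ReductiveRankOneNormal : Prop :=
  ∀ (H : Type) [NormedAddCommGroup H] [InnerProductSpace ℂ H] [CompleteSpace H]
    (N T : H →L[ℂ] H) (u v : H), IsStarNormal N → (∀ f, T f = N f + ⟪v, f⟫_ℂ • u) →
    IsReductive T → IsStarNormal T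

/-- For almost every `t`, if `N + t K` is reductive then it is normal. -/
def GenericReductiveNormal {H : Type} [NormedAddCommGroup H] [InnerProductSpace ℂ H]
    [CompleteSpace H] (N K : H →L[ℂ] H) : Prop :=
  (∀ (m : Measure ℂ) [SFinite m], BoundedPotential m →
    ∀ᵐ t ∂m, IsReductive (N + t • K) → IsStarNormal (N + t • K)) ∧
  (∀ᵐ t : ℂ, IsReductive (N + t • K) → IsStarNormal (N + t • K)) ∧
  (∀ᵐ t : ℝ, IsReductive (N + (t : ℂ) • K) → IsStarNormal (N + (t : ℂ) • K))

/-- **Reductive rank one perturbations of normal operators are normal, and so are generic reductive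
trace class perturbations.** -/
theorem result :
    ReductiveRankOneNormal ∧
    ∀ (H : Type) [NormedAddCommGroup H] [InnerProductSpace ℂ H] [CompleteSpace H]
      [TopologicalSpace.SeparableSpace H] (N K : H →L[ℂ] H), IsStarNormal N → TraceClass K →
      GenericReductiveNormal N K := by
  refine ⟨?_, ?_⟩
  · intro H _ _ _ N T u v hN hT hred
    exact Pool.Agent.Y271.RR.main H N T hN u v hT hred
  intro H _ _ _ _ N K hN hK
  obtain ⟨u, v, hu, hv, hs⟩ := hK
  have hR : Pool.Agent.Y283.NK.Repr K u v := ⟨hu, hv, hs⟩
  have main : ∀ (m : Measure ℂ) [SFinite m], Pool.Agent.Y283.NK.LogBd m →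
      ∀ᵐ t ∂m, IsReductive (N + t • K) → IsStarNormal (N + t • K) := fun m _ hm =>
    Pool.Agent.Y271.RN.couplings H N K hN u v hR m hm
  refine ⟨?_, ?_, ?_⟩
  · intro m _ hm
    refine main m fun R => ?_
    obtain ⟨h0, hm⟩ := hm
    obtain ⟨h1, C, hC⟩ := hm R
    refine ⟨C + (m (ball (0:ℂ) R)).toNNReal, ?_, fun s => ?_⟩
    · rw [ENNReal.coe_add, ENNReal.coe_toNNReal h1]
      exact le_add_self
    · calc ∫⁻ t in ball (0:ℂ) R, Pool.Agent.Y283.NK.lm ‖t - s‖ ∂m
          = ∫⁻ t in ball (0:ℂ) R, ENNReal.ofReal (Real.posLog ‖t - s‖⁻¹) ∂m := by
            refine lintegral_congr_ae (ae_restrict_of_ae ?_)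
            have h2 : ∀ᵐ t ∂m, t ≠ s := by
              rw [ae_iff]
              simpa using h0 s
            filter_upwards [h2] with t ht
            unfold Pool.Agent.Y283.NK.lm
            rw [if_neg (by simpa [sub_eq_zero] using ht)]
        _ ≤ C := hC s
        _ ≤ _ := by rw [ENNReal.coe_add]; exact le_self_add
  · exact main volume Pool.Agent.Y891.NK.main_vol.1
  · have h := main (Measure.map (fun t : ℝ => (t : ℂ)) volume) Pool.Agent.Y891.NK.main_vol.2
    exact ae_of_ae_map Complex.continuous_ofReal.measurable.aemeasurable h

end Pool.Agent.Results.MP_49c4d9_an.ReductiveCouplings
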