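import Pool.Agent.Y283.TO.Red4

/-!
Reductive Toeplitz operators with Hölder symbols of exponent greater than one half.
-/

set_option autoImplicit false

namespace Pool.Agent.Results.MP_49c4d9_an.ReductiveToeplitz

open scoped NNReal

/-- `T` is reductive: every closed invariant subspace of `T` is invariant under the adjoint. -/
def IsReductive {H : Type} [NormedAddCommGroup H] [InnerProductSpace ℂ H] [CompleteSpace H]
    (T : H →L[ℂ] H) : Prop :=
  ∀ V : Submodule ℂ H, IsClosed (V : Set H) → (∀ x ∈ V, T x ∈ V) →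
    ∀ x ∈ V, ContinuousLinearMap.adjoint T x ∈ V

/-- `T` has the Toeplitz matrix of the symbol `φ` in the orthonormal basis `b`: the entry at `(i, j)`
is the Fourier coefficient of `φ` of index `i - j`. -/
def HasToeplitzMatrix {H : Type} [NormedAddCommGroup H] [InnerProductSpace ℂ H]
    (b : HilbertBasis ℕ ℂ H) (φ : UnitAddCircle → ℂ) (T : H →L[ℂ] H) : Prop :=
  ∀ i j : ℕ, inner ℂ (b i) (T (b j)) = fourierCoeff φ ((i : ℤ) - j)

/-- **Reductive Toeplitz operators with Hölder symbols.** Let `φ` be a complex function on the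
circle, Hölder continuous with exponent `α > 1/2`, and let `T` be a bounded operator on a Hilbert
space whose matrix in some orthonormal basis is the Toeplitz matrix of `φ`. If `T` is reductive then
`T` is normal. More precisely `T` is reductive if and only if it is normal, and if and only if the
values of `φ` lie on a straight line. -/
theorem result (H : Type) [NormedAddCommGroup H] [InnerProductSpace ℂ H] [CompleteSpace H]
    (b : HilbertBasis ℕ ℂ H) (φ : UnitAddCircle → ℂ) (C α : ℝ≥0) (hα : 1 / 2 < α)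
    (hφ : HolderWith C α φ) (T : H →L[ℂ] H) (hT : HasToeplitzMatrix b φ T) :
    (IsReductive T ↔ IsStarNormal T) ∧
    (IsReductive T ↔ ∃ (a β : ℂ) (f : UnitAddCircle → ℝ), ∀ t, φ t = a + β * f t) := by
  have hα0 : 0 < α := lt_trans (by norm_num) hα
  let Φ : Pool.Agent.Y283.TO.CT := ⟨φ, hφ.continuous hα0⟩
  have hT' : Pool.Agent.Y283.TO.RD.IsToe b Φ T := fun i j => hT i j
  obtain ⟨L, q, hL, hq, hq2, hHD⟩ := Pool.Agent.Y283.TO.HD_of_holder Φ C α hα hφ
  have h1 : IsReductive T → IsStarNormal T := fun hred =>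
    Pool.Agent.Y283.TO.RD.red_toeplitz b Φ T hT' hred L q hL hq hq2 hHD
  have h2 : IsStarNormal T → ∃ (a β : ℂ) (f : UnitAddCircle → ℝ), ∀ t, φ t = a + β * f t :=
    fun hN => Pool.Agent.Y283.TO.RD.line_of_normal b Φ T hT' hN
  have h3 : (∃ (a β : ℂ) (f : UnitAddCircle → ℝ), ∀ t, φ t = a + β * f t) → IsReductive T :=
    fun h => Pool.Agent.Y283.TO.RD.reductive_of_line b Φ T hT' h
  exact ⟨⟨h1, fun h => h3 (h2 h)⟩, ⟨fun h => h2 (h1 h), h3⟩⟩

end Pool.Agent.Results.MP_49c4d9_an.ReductiveToeplitz
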