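import Mathlib
import Pool.Agent.Y187.RF.Three

/-!
# MP_49c4d9_an: a reductive algebra generated by two operators need not be self-adjoint

Q1 is equivalent to the question whether every reductive algebra with one generator is self-adjoint. Here
there are two generators, an orthogonal projection `P` and a nilpotent operator `N` with `N ^ 3 = 0`.

The proof: in the II_1 factor `M = L^∞(Z_2) ⋊ F_2` in its standard form on `ℓ²(P × F_2)` there is a
quasinilpotent operator `T` without nontrivial invariant projections in `M` (the starting development
`H728R2.Q77`, never handed in); the commutant of `M` is generated by the right translations and one more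
operator (averaging argument, `Y187/RF/Avg.lean`); the six operators are put in a companion matrix, which with
one projection generates the full matrix algebra (`Comp.lean`), and then in a strictly upper triangular
`3 × 3` matrix (`Nil.lean`).
-/

set_option autoImplicit false

open scoped InnerProductSpace
open Pool.Agent.Y187.RF

namespace Pool.Agent.Results.MP_49c4d9_an.ReductiveTwoGenerators

/-- On a separable Hilbert space there are an orthogonal projection `P` and an operator `N` with `N ^ 3 = 0`
such that `0` and `H` are the only closed subspaces invariant under both, so that the weakly closed algebra
generated by `P` and `N` is reductive, but this algebra is not self-adjoint: there is a nonzero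
quasinilpotent operator `Z`, a polynomial in `P` and `N`, which commutes with `P` and `N` and whose adjoint
is not in the weakly closed algebra generated by `P` and `N`. -/
theorem result : ∃ (H : Type) (_ : NormedAddCommGroup H) (_ : InnerProductSpace ℂ H)
    (_ : CompleteSpace H) (P N Z : H →L[ℂ] H),
    TopologicalSpace.SeparableSpace H ∧ IsStarProjection P ∧ N ^ 3 = 0 ∧
    TransitiveSet {P, N} ∧ CentralWitness {P, N} Z := by
  obtain ⟨P, N, Z, h1, h2, h3, h4, h5, h6, h7, h8, h9⟩ := projection_nilpotent
  have := separable_Hs
  have := separable_Sm (H := Pool.Agent.H941R2.CM.Hs) 6
  exact ⟨_, inferInstance, inferInstance, inferInstance, P, N, Z,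
    separable_Sm (H := Sm 6 Pool.Agent.H941R2.CM.Hs) 2, h1, h2, h3, h4, by
      rintro A (rfl | hA)
      · exact h5
      · rw [Set.mem_singleton_iff.1 hA]
        exact h6, h7, h8, h9⟩

end Pool.Agent.Results.MP_49c4d9_an.ReductiveTwoGenerators
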