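import Pool.Agent.Y63.GN.Cen

/-!
# Typical operators of the hyperfinite factor with Brown measure at one point (MP_49c4d9_an)

Let `M` be the hyperfinite II_1 factor with its trace `τ` and 2-norm `‖x‖₂ = ‖x Ω‖` (`HypData`), and let `QN`
be the set of the contractions in `M` whose Brown measure is the point mass at `0`.  It is a `G_δ` in the
complete metric space `Ball` of all contractions in `M` (2-norm), hence a Baire space.  For operators of `M`
whose Brown measure is not a point mass invariant projections in `M` are known (Haagerup, Schultz); `QN` is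
the case left open.

For a typical `T` in `QN`:

(1) there are projections `P t` in `M`, `0 ≤ t ≤ 1`, increasing, of trace `t`, invariant under every operator
of `M` which commutes with `T`, and they generate a maximal abelian subalgebra of `M`;

(2) every operator commuting with `T` and its adjoint commutes with `M`, that is, `T` generates `M`;

(3) whenever `ρ` is a faithful representation of `M` on a Hilbert space `K` (normal or not, for instance
irreducible; `M` being simple, every unital representation is faithful), the operator `ρ T` has a strictly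
increasing chain of closed invariant subspaces `V t`, `0 ≤ t ≤ 1`, from `{0}` to `K`, each invariant under all
`ρ S` with `S` in `M` commuting with `T`, and for `0 < t < 1` the subspace `V t` does not reduce `ρ T`.  So
`ρ T` is not reductive: no faithful representation of `M` makes a typical `T` a counterexample to the
reductive operator problem.

(1), (2) are the theorem of the starting library `Pool.Agent.H751R2.GN` (never handed in there; helpers 751,
857 and the formalisers of its parts), (3) is deduced here.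

Proof of (1).  Nilpotent matrices of full index are dense in `QN`.  If a nilpotent matrix `T` in a large
matrix algebra is close to `N ⊗ 1`, `N` of full index, then after an amplification it is close to a matrix
of full index whose flag of kernels is as close as one wants to the flag of `N` (a theorem on block companion
matrices).  So the flags converge along a Baire tree.  Proof of (3): if `V t` reduced `ρ T`, then `P t` would
commute with `T`, hence with `M` by (2), and `τ (P t)` would be `0` or `1`, as `M` is a factor.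
-/

set_option autoImplicit false

open scoped ComplexOrder Kronecker
open Filter Topology Pool.Agent.H751R2.GN

namespace Pool.Agent.Results.MP_49c4d9_an.TypicalInHyperfiniteFactor

variable {H : Type} [NormedAddCommGroup H] [InnerProductSpace ℂ H] [CompleteSpace H]

/-- `T` generates `M`: every operator commuting with `T` and its adjoint commutes with `M`. -/
def Generates (D : HypData H) (T : H →L[ℂ] H) : Prop :=
  ∀ S : H →L[ℂ] H, S * T = T * S → S * star T = star T * S → ∀ x ∈ D.M, S * x = x * S

/-- `f` is a faithful unital *-representation of `M` on the Hilbert space `K` (the values of `f` outside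
of `M` do not matter). -/
structure FaithfulRep (D : HypData H) {K : Type} [NormedAddCommGroup K] [InnerProductSpace ℂ K]
    [CompleteSpace K] (f : (H →L[ℂ] H) → (K →L[ℂ] K)) : Prop where
  one : f 1 = 1
  add : ∀ x ∈ D.M, ∀ y ∈ D.M, f (x + y) = f x + f y
  smul : ∀ c : ℂ, ∀ x ∈ D.M, f (c • x) = c • f x
  mul : ∀ x ∈ D.M, ∀ y ∈ D.M, f (x * y) = f x * f y
  adj : ∀ x ∈ D.M, f (star x) = star (f x)
  inj : ∀ x ∈ D.M, f x = 0 → x = 0

/-- The closed subspaces `V t`, `0 ≤ t ≤ 1`, increase strictly from `{0}` to `K`, and they are invariant under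
`f S` for all `S` in `M` commuting with `T`. -/
def InvariantChain (D : HypData H) (T : H →L[ℂ] H) {K : Type} [NormedAddCommGroup K]
    [InnerProductSpace ℂ K] (f : (H →L[ℂ] H) → (K →L[ℂ] K)) (V : ℝ → Submodule ℂ K) : Prop :=
  V 0 = ⊥ ∧ V 1 = ⊤ ∧ (∀ s t : ℝ, 0 ≤ s → s < t → t ≤ 1 → V s < V t) ∧
    ∀ t : ℝ, 0 ≤ t → t ≤ 1 → IsClosed (V t : Set K) ∧
      ∀ S ∈ D.M, S * T = T * S → ∀ v ∈ V t, f S v ∈ V t

/-- `V t` is not invariant under the adjoint of `A`, for `0 < t < 1`. -/
def NeverReduces {K : Type} [NormedAddCommGroup K] [InnerProductSpace ℂ K] [CompleteSpace K]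
    (A : K →L[ℂ] K) (V : ℝ → Submodule ℂ K) : Prop :=
  ∀ t : ℝ, 0 < t → t < 1 → ∃ v ∈ V t, star A v ∉ V t

/-- For every faithful representation `f` of `M` on a Hilbert space there is a strictly increasing chain of
closed invariant subspaces of `f T`, as above, none of which (except the trivial ones) reduces `f T`. -/
def NonreducingChains (D : HypData H) (T : H →L[ℂ] H) : Prop :=
  ∀ (K : Type) [NormedAddCommGroup K] [InnerProductSpace ℂ K] [CompleteSpace K]
    (f : (H →L[ℂ] H) → (K →L[ℂ] K)), FaithfulRep D f →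
    ∃ V : ℝ → Submodule ℂ K, InvariantChain D T f V ∧ NeverReduces (f T) V

theorem zero_of_trace (D : HypData H) (p : H →L[ℂ] H) (hp : p ∈ D.M) (hs : star p = p)
    (hi : p * p = p) (h0 : inner ℂ D.Ω (p D.Ω) = (0 : ℂ)) : p = 0 := by
  refine (t_BR1 H D p hp 1 (one_mem D.M)).2.2 ?_
  have h2 : inner ℂ (p D.Ω) (p D.Ω) = (inner ℂ D.Ω (p D.Ω) : ℂ) := by
    conv_lhs => rw [← hs]
    rw [ContinuousLinearMap.star_eq_adjoint, ContinuousLinearMap.adjoint_inner_left,
      ← ContinuousLinearMap.star_eq_adjoint, hs]
    change inner ℂ D.Ω ((p * p) D.Ω) = _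
    rw [hi]
  rw [h0] at h2
  exact inner_self_eq_zero.1 h2

theorem chains (D : HypData H) (T : H →L[ℂ] H) (hTM : T ∈ D.M) (hM : MNest D T)
    (hG : Generates D T) : NonreducingChains D T := by
  intro K _ _ _ ρ hρ
  obtain ⟨P, hP, hmono, -⟩ := hM
  let Q : ℝ → (K →L[ℂ] K) := fun t => ρ (P t)
  have hQi : ∀ t, 0 ≤ t → t ≤ 1 → Q t * Q t = Q t := by
    intro t h0 h1
    obtain ⟨p1, p2, p3, -⟩ := hP t h0 h1
    change ρ (P t) * ρ (P t) = ρ (P t)
    rw [← hρ.mul _ p1 _ p1, p3]
  have hQm : ∀ s t, 0 ≤ s → s ≤ t → t ≤ 1 → Q t * Q s = Q s := by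
    intro s t h0 hst h1
    change ρ (P t) * ρ (P s) = ρ (P s)
    rw [← hρ.mul _ (hP t (h0.trans hst) h1).1 _ (hP s h0 (hst.trans h1)).1, hmono s t h0 hst h1]
  have hQs : ∀ t, 0 ≤ t → t ≤ 1 → star (Q t) = Q t := by
    intro t h0 h1
    obtain ⟨p1, p2, -⟩ := hP t h0 h1
    change star (ρ (P t)) = ρ (P t)
    rw [← hρ.adj _ p1, p2]
  have hmem : ∀ t, 0 ≤ t → t ≤ 1 → ∀ v : K, v ∈ LinearMap.range (Q t : K →ₗ[ℂ] K) ↔ Q t v = v := by
    intro t h0 h1 v
    constructor
    · rintro ⟨w, rfl⟩
      change (Q t * Q t) w = Q t w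
      rw [hQi t h0 h1]
    · intro h
      exact ⟨v, h⟩
  have hsub : ∀ x ∈ D.M, ∀ y ∈ D.M, ρ (x - y) = ρ x - ρ y := by
    intro x hx y hy
    have h1 : x - y = x + (-1 : ℂ) • y := by rw [neg_one_smul, sub_eq_add_neg]
    have hy' : (-1 : ℂ) • y ∈ D.M := by
      rw [neg_one_smul]; exact neg_mem hy
    rw [h1, hρ.add _ hx _ hy', hρ.smul _ _ hy, neg_one_smul, sub_eq_add_neg]
  have hinj : ∀ x ∈ D.M, ∀ y ∈ D.M, ρ x = ρ y → x = y := by
    intro x hx y hy h
    have h2 := hρ.inj (x - y) (sub_mem hx hy) (by rw [hsub x hx y hy, h, sub_self])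
    exact sub_eq_zero.1 h2
  refine ⟨fun t => LinearMap.range (Q t : K →ₗ[ℂ] K), ⟨?_, ?_, ?_, ?_⟩, ?_⟩
  · have h0 : P 0 = 0 := by
      obtain ⟨h1, h2, h3, h4, -⟩ := hP 0 le_rfl zero_le_one
      exact zero_of_trace D _ h1 h2 h3 (by rw [h4]; simp)
    rw [Submodule.eq_bot_iff]
    intro v hv
    rw [hmem 0 le_rfl zero_le_one] at hv
    rw [← hv]
    have h2 : ρ 0 = 0 := by
      have h3 := hsub 1 (one_mem D.M) 1 (one_mem D.M)
      rwa [sub_self, sub_self] at h3
    change ρ (P 0) v = 0
    rw [h0, h2]; rfl
  · have h0 : 1 - P 1 = 0 := by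
      obtain ⟨h1, h2, h3, h4, -⟩ := hP 1 zero_le_one le_rfl
      refine zero_of_trace D _ (sub_mem (one_mem D.M) h1) ?_ ?_ ?_
      · rw [star_sub, star_one, h2]
      · rw [sub_mul, one_mul, mul_sub, mul_one, h3, sub_self, sub_zero]
      · change inner ℂ D.Ω (D.Ω - P 1 D.Ω) = 0
        rw [inner_sub_right, h4, inner_self_eq_norm_sq_to_K, D.norm_Ω]
        simp
    rw [eq_top_iff]
    intro v _
    rw [hmem 1 zero_le_one le_rfl]
    change ρ (P 1) v = v
    rw [← sub_eq_zero.1 h0, hρ.one]; rfl
  · intro s t h0 hst h1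
    refine lt_of_le_of_ne ?_ ?_
    · intro v hv
      rw [hmem s h0 (hst.le.trans h1)] at hv
      rw [hmem t (h0.trans hst.le) h1, ← hv]
      change (Q t * Q s) v = Q s v
      rw [hQm s t h0 hst.le h1]
    · intro heq
      have heq' : LinearMap.range (Q s : K →ₗ[ℂ] K) = LinearMap.range (Q t : K →ₗ[ℂ] K) := heq
      have h2 : Q s * Q t = Q t := by
        ext v
        have h3 : Q t v ∈ LinearMap.range (Q s : K →ₗ[ℂ] K) := by
          rw [heq']; exact ⟨v, rfl⟩
        exact (hmem s h0 (hst.le.trans h1) _).1 h3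
      have h4 : Q s = Q t := by
        have h5 := congrArg star h2
        rw [star_mul, hQs s h0 (hst.le.trans h1), hQs t (h0.trans hst.le) h1,
          hQm s t h0 hst.le h1] at h5
        exact h5
      have h7 : P s = P t := hinj _ (hP s h0 (hst.le.trans h1)).1 _ (hP t (h0.trans hst.le) h1).1 h4
      have h8 := (hP s h0 (hst.le.trans h1)).2.2.2.1
      rw [h7, (hP t (h0.trans hst.le) h1).2.2.2.1] at h8
      have h9 : t = s := by exact_mod_cast h8
      exact hst.ne h9.symm
  · intro t h0 h1
    obtain ⟨p1, p2, p3, p4, p5, p6⟩ := hP t h0 h1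
    refine ⟨?_, ?_⟩
    · have h2 : (LinearMap.range (Q t : K →ₗ[ℂ] K) : Set K) = {v | Q t v = v} := by
        ext v
        exact hmem t h0 h1 v
      rw [h2]
      exact isClosed_eq (Q t).continuous continuous_id
    · intro S hSM hS v hv
      rw [hmem t h0 h1] at hv ⊢
      have h4 : ρ S * Q t = Q t * ρ S * Q t := by
        change ρ S * ρ (P t) = ρ (P t) * ρ S * ρ (P t)
        rw [← hρ.mul _ hSM _ p1, ← hρ.mul _ p1 _ hSM, ← hρ.mul _ (mul_mem p1 hSM) _ p1,
          ← p6 S hSM hS]
      have h5 : ρ S v = (ρ S * Q t) v := by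
        change ρ S v = ρ S (Q t v)
        rw [hv]
      conv_rhs => rw [h5, h4]
      change Q t (ρ S v) = Q t (ρ S (Q t v))
      rw [hv]
  · intro t ht0 ht1
    have h0 := ht0.le
    have h1 := ht1.le
    obtain ⟨p1, p2, p3, p4, p5, p6⟩ := hP t h0 h1
    by_contra hcon
    push Not at hcon
    -- the range of `Q t` reduces `ρ T`
    have h2 : star (ρ T) * Q t = Q t * star (ρ T) * Q t := by
      ext v
      have h3 : Q t v ∈ LinearMap.range (Q t : K →ₗ[ℂ] K) := ⟨v, rfl⟩
      have h4 := hcon _ h3
      rw [hmem t h0 h1] at h4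
      exact h4.symm
    have h5 : Q t * ρ T = Q t * ρ T * Q t := by
      have h6 := congrArg star h2
      rw [star_mul, star_mul, star_mul, star_star, hQs t h0 h1, ← mul_assoc] at h6
      exact h6
    have h7 : ρ T * Q t = Q t * ρ T * Q t := by
      change ρ T * ρ (P t) = ρ (P t) * ρ T * ρ (P t)
      rw [← hρ.mul _ hTM _ p1, ← hρ.mul _ p1 _ hTM, ← hρ.mul _ (mul_mem p1 hTM) _ p1, ← p5]
    have h10 : P t * T = T * P t := by
      refine hinj _ (mul_mem p1 hTM) _ (mul_mem hTM p1) ?_
      rw [hρ.mul _ p1 _ hTM, hρ.mul _ hTM _ p1]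
      change Q t * ρ T = ρ T * Q t
      rw [h5, h7]
    have h12 : P t * star T = star T * P t := by
      have h13 := congrArg star h10
      rw [star_mul, star_mul, p2] at h13
      exact h13.symm
    have h14 := hG (P t) h10 h12
    rcases Pool.Agent.Y63.GN.central_trace D (P t) p1 p2 p3 h14 with h | h
    · rw [p4] at h
      have : t = 0 := by exact_mod_cast h
      exact ht0.ne' this
    · rw [p4] at h
      have : t = 1 := by exact_mod_cast h
      exact ht1.ne this

/-- **Theorem.** The contractions of the hyperfinite II_1 factor `M` with Brown measure `δ_0` form a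
non-empty `G_δ` subset `QN` of the complete metric space of all contractions of `M` with the 2-norm, and a
typical element `T` of the Baire space `QN` has a full nest of projections in `M`, hyperinvariant in `M`,
which generates a maximal abelian subalgebra of `M` (`MNest`), generates `M`, and in no faithful
representation of `M` is it reductive (`NonreducingChains`). -/
theorem result (H : Type) [NormedAddCommGroup H] [InnerProductSpace ℂ H] [CompleteSpace H]
    (D : HypData H) :
    CompleteSpace (Ball D) ∧ (∀ S T : Ball D, dist S T = 0 → S = T) ∧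
    IsGδ (QN D) ∧ (QN D).Nonempty ∧ BaireSpace (QN D) ∧
    {T : QN D | MNest D T.1.1 ∧ Generates D T.1.1 ∧ NonreducingChains D T.1.1} ∈
      residual (QN D) := by
  obtain ⟨h1, h2, h3, h4, h5⟩ := p_MAINM H D
  refine ⟨h1, h2, h3, ?_, h4, ?_⟩
  · refine ⟨⟨0, zero_mem D.M, by simp⟩, ?_⟩
    intro μ hμ
    have h := p_BN7 H D 0 0 IsNilpotent.zero μ hμ
    rw [map_zero] at h
    exact h
  · filter_upwards [h5] with T hT
    exact ⟨hT.1, hT.2, chains D T.1.1 T.1.2.1 hT.1 hT.2⟩

end Pool.Agent.Results.MP_49c4d9_an.TypicalInHyperfiniteFactor
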